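import Pool.Agent.Lib_MP_a95293_ah.Top

set_option autoImplicit false

/-! MP_a95293_nt: power saving for the number of zero-sum `n`-tuples with radical at most `X`. -/

namespace Pool.Agent.Results.MP_a95293_nt.PowerSaving

/-- `rad m` is the product of the distinct primes dividing the integer `m` (and `rad (±1) = 1`). -/
def rad (m : ℤ) : ℕ := ∏ p ∈ m.natAbs.primeFactors, p

/-- An `n`-tuple of integers is admissible if its gcd is `1`, its sum is `0`, and no nonempty
proper sub-sum vanishes. -/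
def Admissible {n : ℕ} (x : Fin n → ℤ) : Prop :=
  Finset.univ.gcd x = 1 ∧ ∑ i, x i = 0 ∧
    ∀ S : Finset (Fin n), S.Nonempty → S ≠ Finset.univ → ∑ i ∈ S, x i ≠ 0

/-- The height of a tuple: the largest absolute value of its entries. -/
def height {n : ℕ} (x : Fin n → ℤ) : ℕ := Finset.univ.sup fun j => (x j).natAbs

/-- The entries of `x` are pairwise coprime. -/
def PairwiseCoprime {n : ℕ} (x : Fin n → ℤ) : Prop := ∀ i j, i ≠ j → IsCoprime (x i) (x j)

/-- The admissible `n`-tuples of radical at most `X`. There is no condition on the height if `n = 3`;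
if `n ≥ 4`, the height is at most `exp (exp ((log X) ^ B))`, and the tuples of height larger than
`exp ((log X) ^ B)` have to be pairwise coprime. -/
def Tuples (n B X : ℕ) : Set (Fin n → ℤ) :=
  {x | Admissible x ∧ rad (∏ j, x j) ≤ X ∧
    (4 ≤ n → (height x : ℝ) ≤ Real.exp (Real.exp (Real.log X ^ B)) ∧
      (Real.exp (Real.log X ^ B) < height x → PairwiseCoprime x))}

/-- The pairwise coprime ones among the above tuples, of height at most `exp (exp ((log X) ^ B))`. -/
def CoprimeTuples (n B X : ℕ) : Set (Fin n → ℤ) :=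
  {x | x ∈ Tuples n B X ∧ (height x : ℝ) ≤ Real.exp (Real.exp (Real.log X ^ B)) ∧ PairwiseCoprime x}

/-- The entries of `x` are `x j = a j * q j ^ e j`, where each `q j` is a prime or `1` and the
radical of the product of the coefficients `a j` is at most `E`. -/
def FermatShape {n : ℕ} (E : ℝ) (x : Fin n → ℤ) : Prop :=
  ∃ (a : Fin n → ℤ) (q e : Fin n → ℕ), (∀ j, x j = a j * (q j : ℤ) ^ e j) ∧
    (∀ j, q j = 1 ∨ (q j).Prime) ∧ (rad (∏ j, a j) : ℝ) ≤ E

/-- Let `n ≥ 3` and `B` be given. For some `δ > 0` and all large `X`, there are at most `X ^ (1 - δ)` of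
the above tuples; for `n = 3` these are all admissible triples of radical at most `X`, of any height.
The pairwise coprime ones of height at most `exp (exp ((log X) ^ B))` split as follows: for every `ε > 0`
and all large `X`, at most `X ^ (1 - ε / (4 n))` are not of the above shape with `E = X ^ ε`, and for every
`η > 0` there is `ε > 0` such that for all large `X` at most `X ^ (1 - 1 / n + η)` are of this shape. -/
theorem result (n B : ℕ) (hn : 3 ≤ n) :
    (∃ δ : ℝ, 0 < δ ∧ ∃ X₀ : ℕ, ∀ X : ℕ, X₀ ≤ X →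
      (Tuples n B X).Finite ∧ ((Tuples n B X).ncard : ℝ) ≤ (X : ℝ) ^ (1 - δ)) ∧
    (∀ ε : ℝ, 0 < ε → ∃ X₀ : ℕ, ∀ X : ℕ, X₀ ≤ X →
      (({x | x ∈ CoprimeTuples n B X ∧ ¬ FermatShape ((X : ℝ) ^ ε) x} : Set (Fin n → ℤ)).ncard : ℝ) ≤
        (X : ℝ) ^ (1 - ε / (4 * n))) ∧
    ∀ η : ℝ, 0 < η → ∃ ε : ℝ, 0 < ε ∧ ∃ X₀ : ℕ, ∀ X : ℕ, X₀ ≤ X →
      (({x | x ∈ CoprimeTuples n B X ∧ FermatShape ((X : ℝ) ^ ε) x} : Set (Fin n → ℤ)).ncard : ℝ) ≤
        (X : ℝ) ^ (1 - 1 / (n : ℝ) + η) :=
  Pool.MP_a95293_nt.AH.top n B hn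

end Pool.Agent.Results.MP_a95293_nt.PowerSaving
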