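import Mathlib

set_option autoImplicit false

/-! MP_a95293_nt: the sharper form of the `n`-term abc conjecture (exponent `2n - 5 + ε` with
finitely many exceptions) is false for every `n ≥ 34` and for `n ∈ {10, …, 12, 18, …, 22,
26, …, 32}`. -/

namespace Pool.Agent.Results.MP_a95293_nt.SharperFormFails

/-- `rad m` is the product of the distinct primes dividing the integer `m` (and `rad (±1) = 1`). -/
def rad (m : ℤ) : ℕ := ∏ p ∈ m.natAbs.primeFactors, p

/-- An `n`-tuple of integers is admissible if its gcd is `1`, its sum is `0`, and no nonempty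
proper sub-sum vanishes. -/
def Admissible {n : ℕ} (x : Fin n → ℤ) : Prop :=
  Finset.univ.gcd x = 1 ∧ ∑ i, x i = 0 ∧
    ∀ S : Finset (Fin n), S.Nonempty → S ≠ Finset.univ → ∑ i ∈ S, x i ≠ 0

/-- A sum of integers with pairwise distinct powers of two is not zero. -/
theorem sum_ne_zero {ι : Type*} [DecidableEq ι] (S : Finset ι) (hS : S.Nonempty) (x o : ι → ℤ)
    (v : ι → ℕ) (hx : ∀ i ∈ S, x i = 2 ^ v i * o i) (ho : ∀ i ∈ S, Odd (o i))
    (hv : ∀ i ∈ S, ∀ j ∈ S, v i = v j → i = j) : ∑ i ∈ S, x i ≠ 0 := by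
  obtain ⟨i0, hi0, hmin⟩ := Finset.exists_min_image S v hS
  have hlt : ∀ i ∈ S.erase i0, v i0 + 1 ≤ v i := by
    intro i hi
    have h1 := hmin i (Finset.mem_of_mem_erase hi)
    have h2 : v i ≠ v i0 := fun h =>
      Finset.ne_of_mem_erase hi (hv i (Finset.mem_of_mem_erase hi) i0 hi0 h)
    omega
  have hdvd : (2 : ℤ) ^ (v i0 + 1) ∣ ∑ i ∈ S.erase i0, x i := by
    refine Finset.dvd_sum fun i hi => ?_
    rw [hx i (Finset.mem_of_mem_erase hi)]
    exact (pow_dvd_pow 2 (hlt i hi)).mul_right _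
  obtain ⟨K, hK⟩ := hdvd
  rw [← Finset.add_sum_erase S x hi0, hK, hx i0 hi0]
  obtain ⟨w, hw⟩ := ho i0 hi0
  intro h
  have h2 : (2 : ℤ) ^ v i0 * (o i0 + 2 * K) = 0 := by
    rw [← h]; ring
  have h3 : (2 : ℤ) ^ v i0 ≠ 0 := by positivity
  have h4 := (mul_eq_zero.1 h2).resolve_left h3
  omega

/-- A polynomial relation of degree `D` between the terms
`2 ^ ν i * o i * X ^ a i * (X - 1) ^ b i * (X + 1) ^ e i`; at `X = 2 ^ u` exactly two terms are odd,
the other ones have distinct powers of two, the largest one being a power of `X` up to a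
constant. -/
structure Block (ι : Type) [Fintype ι] (D : ℕ) where
  ν : ι → ℕ
  o : ι → ℤ
  a : ι → ℕ
  b : ι → ℕ
  e : ι → ℕ
  i0 : ι
  i1 : ι
  p : ι
  sum : ∀ X : ℤ, ∑ i, 2 ^ ν i * o i * (X ^ a i * ((X - 1) ^ b i * (X + 1) ^ e i)) = 0
  odd : ∀ i, Odd (o i)
  ne : i0 ≠ i1
  p0 : p ≠ i0
  p1 : p ≠ i1
  ν0 : ν i0 = 0
  ν1 : ν i1 = 0
  a0 : a i0 = 0
  a1 : a i1 = 0
  deg : b i0 + e i0 = D
  bp : b p = 0
  ep : e p = 0
  pos : ∀ u, 1 ≤ u → ∀ i, i ≠ i0 → i ≠ i1 → 0 < ν i + u * a i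
  inj : ∀ u, 1 ≤ u → ∀ i j, i ≠ i0 → i ≠ i1 → j ≠ i0 → j ≠ i1 →
    ν i + u * a i = ν j + u * a j → i = j
  mx : ∀ u, 1 ≤ u → ∀ i, i ≠ p → ν i + u * a i < ν p + u * a p

/-- There is a block of degree `4 k` with `k + 2` terms. -/
def HasBlock (k : ℕ) : Prop :=
  ∃ (ι : Type) (_ : Fintype ι) (_ : DecidableEq ι), Fintype.card ι = k + 2 ∧
    Nonempty (Block ι (4 * k))

/-! ### Gluing -/

section glue

variable {ι₁ ι₂ : Type} [Fintype ι₁] [Fintype ι₂] [DecidableEq ι₁] [DecidableEq ι₂] {D₁ D₂ : ℕ}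

/-- Gluing two blocks. -/
def Block.glue (A : Block ι₁ D₁) (B : Block ι₂ D₂) :
    Block ({i : ι₁ // i ≠ A.p} ⊕ {j : ι₂ // j ≠ B.i0}) (D₁ + D₂) where
  ν := Sum.elim (fun i => A.ν i) (fun j => A.ν A.p + B.ν j)
  o := Sum.elim (fun i => A.o i * B.o B.i0) (fun j => -(A.o A.p * B.o j))
  a := Sum.elim (fun i => A.a i) (fun j => A.a A.p + B.a j)
  b := Sum.elim (fun i => A.b i + B.b B.i0) (fun j => B.b j)
  e := Sum.elim (fun i => A.e i + B.e B.i0) (fun j => B.e j)
  i0 := Sum.inl ⟨A.i0, A.p0.symm⟩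
  i1 := Sum.inl ⟨A.i1, A.p1.symm⟩
  p := Sum.inr ⟨B.p, B.p0⟩
  sum := by
    intro X
    have hA := A.sum X
    have hB := B.sum X
    rw [← Finset.add_sum_erase _ _ (Finset.mem_univ A.p)] at hA
    rw [← Finset.add_sum_erase _ _ (Finset.mem_univ B.i0)] at hB
    rw [Fintype.sum_sum_type]
    simp only [Sum.elim_inl, Sum.elim_inr]
    have e1 : ∑ i : {i : ι₁ // i ≠ A.p}, 2 ^ A.ν i * (A.o i * B.o B.i0) *
        (X ^ A.a i * ((X - 1) ^ (A.b i + B.b B.i0) * (X + 1) ^ (A.e i + B.e B.i0))) =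
        (∑ i ∈ Finset.univ.erase A.p, 2 ^ A.ν i * A.o i *
          (X ^ A.a i * ((X - 1) ^ A.b i * (X + 1) ^ A.e i))) *
          (B.o B.i0 * ((X - 1) ^ B.b B.i0 * (X + 1) ^ B.e B.i0)) := by
      rw [Finset.sum_mul]
      rw [← Finset.sum_subtype (Finset.univ.erase A.p) (p := fun i => i ≠ A.p)
        (by intro i; simp)
        (fun i => 2 ^ A.ν i * (A.o i * B.o B.i0) *
        (X ^ A.a i * ((X - 1) ^ (A.b i + B.b B.i0) * (X + 1) ^ (A.e i + B.e B.i0))))]
      refine Finset.sum_congr rfl fun i _ => ?_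
      rw [pow_add, pow_add]
      ring
    have e2 : ∑ j : {j : ι₂ // j ≠ B.i0}, 2 ^ (A.ν A.p + B.ν j) * (-(A.o A.p * B.o j)) *
        (X ^ (A.a A.p + B.a j) * ((X - 1) ^ B.b j * (X + 1) ^ B.e j)) =
        -((2 ^ A.ν A.p * A.o A.p * X ^ A.a A.p) * ∑ j ∈ Finset.univ.erase B.i0, 2 ^ B.ν j * B.o j *
          (X ^ B.a j * ((X - 1) ^ B.b j * (X + 1) ^ B.e j))) := by
      rw [Finset.mul_sum, ← Finset.sum_neg_distrib]
      rw [← Finset.sum_subtype (Finset.univ.erase B.i0) (p := fun j => j ≠ B.i0)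
        (by intro i; simp)
        (fun j => 2 ^ (A.ν A.p + B.ν j) * (-(A.o A.p * B.o j)) *
        (X ^ (A.a A.p + B.a j) * ((X - 1) ^ B.b j * (X + 1) ^ B.e j)))]
      refine Finset.sum_congr rfl fun j _ => ?_
      rw [pow_add, pow_add]
      ring
    rw [e1, e2]
    have hA' : (∑ i ∈ Finset.univ.erase A.p, 2 ^ A.ν i * A.o i *
          (X ^ A.a i * ((X - 1) ^ A.b i * (X + 1) ^ A.e i))) =
          -(2 ^ A.ν A.p * A.o A.p * X ^ A.a A.p) := by
      rw [A.bp, A.ep] at hA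
      linear_combination hA
    have hB' : (∑ j ∈ Finset.univ.erase B.i0, 2 ^ B.ν j * B.o j *
          (X ^ B.a j * ((X - 1) ^ B.b j * (X + 1) ^ B.e j))) =
          -(B.o B.i0 * ((X - 1) ^ B.b B.i0 * (X + 1) ^ B.e B.i0)) := by
      rw [B.ν0, B.a0] at hB
      linear_combination hB
    rw [hA', hB']
    ring
  odd := by
    rintro (i | j)
    · exact (A.odd i).mul (B.odd _)
    · exact ((A.odd _).mul (B.odd j)).neg
  ne := by
    intro h
    exact A.ne (congrArg Subtype.val (Sum.inl.inj h))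
  p0 := by simp
  p1 := by simp
  ν0 := A.ν0
  ν1 := A.ν1
  a0 := A.a0
  a1 := A.a1
  deg := by
    show A.b A.i0 + B.b B.i0 + (A.e A.i0 + B.e B.i0) = D₁ + D₂
    have h1 := A.deg
    have h2 := B.deg
    omega
  bp := B.bp
  ep := B.ep
  pos := by
    intro u hu
    have hp := A.pos u hu A.p A.p0 A.p1
    rintro (⟨i, hi⟩ | ⟨j, hj⟩) h0 h1
    · exact A.pos u hu i (fun h => h0 (by subst h; rfl)) (fun h => h1 (by subst h; rfl))
    · show 0 < A.ν A.p + B.ν j + u * (A.a A.p + B.a j)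
      rw [mul_add]
      omega
  inj := by
    intro u hu
    have hp := A.pos u hu A.p A.p0 A.p1
    rintro (⟨i, hi⟩ | ⟨i, hi⟩) (⟨j, hj⟩ | ⟨j, hj⟩) h0 h1 h2 h3 h
    · have := A.inj u hu i j (fun h => h0 (by subst h; rfl)) (fun h => h1 (by subst h; rfl))
        (fun h => h2 (by subst h; rfl)) (fun h => h3 (by subst h; rfl)) h
      subst this
      rfl
    · exfalso
      have h4 := A.mx u hu i hi
      have h5 : A.ν i + u * A.a i = A.ν A.p + B.ν j + u * (A.a A.p + B.a j) := h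
      rw [mul_add] at h5
      omega
    · exfalso
      have h4 := A.mx u hu j hj
      have h5 : A.ν A.p + B.ν i + u * (A.a A.p + B.a i) = A.ν j + u * A.a j := h
      rw [mul_add] at h5
      omega
    · have h5 : A.ν A.p + B.ν i + u * (A.a A.p + B.a i) =
          A.ν A.p + B.ν j + u * (A.a A.p + B.a j) := h
      rw [mul_add, mul_add] at h5
      have h6 : B.ν i + u * B.a i = B.ν j + u * B.a j := by omega
      have h7 : i = j := by
        by_cases hi1 : i = B.i1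
        · by_cases hj1 : j = B.i1
          · rw [hi1, hj1]
          · exfalso
            have h8 := B.pos u hu j hj hj1
            rw [← h6, hi1, B.ν1, B.a1] at h8
            simp at h8
        · by_cases hj1 : j = B.i1
          · exfalso
            have h8 := B.pos u hu i hi hi1
            rw [h6, hj1, B.ν1, B.a1] at h8
            simp at h8
          · exact B.inj u hu i j hi hi1 hj hj1 h6
      subst h7
      rfl
  mx := by
    intro u hu
    have hp := B.pos u hu B.p B.p0 B.p1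
    rintro (⟨i, hi⟩ | ⟨j, hj⟩) h0
    · have h4 := A.mx u hu i hi
      show A.ν i + u * A.a i < A.ν A.p + B.ν B.p + u * (A.a A.p + B.a B.p)
      rw [mul_add]
      omega
    · have h4 := B.mx u hu j (fun h => h0 (by subst h; rfl))
      show A.ν A.p + B.ν j + u * (A.a A.p + B.a j) <
        A.ν A.p + B.ν B.p + u * (A.a A.p + B.a B.p)
      rw [mul_add, mul_add]
      omega

end glue

theorem HasBlock.add {k₁ k₂ : ℕ} (h₁ : HasBlock k₁) (h₂ : HasBlock k₂) : HasBlock (k₁ + k₂) := by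
  obtain ⟨ι₁, _, _, c₁, ⟨A⟩⟩ := h₁
  obtain ⟨ι₂, _, _, c₂, ⟨B⟩⟩ := h₂
  refine ⟨{i : ι₁ // i ≠ A.p} ⊕ {j : ι₂ // j ≠ B.i0}, inferInstance, inferInstance, ?_, ?_⟩
  · rw [Fintype.card_sum, Fintype.card_subtype_compl, Fintype.card_subtype_compl]
    simp only [Fintype.card_unique]
    omega
  · rw [mul_add]
    exact ⟨A.glue B⟩

/-! ### The basic blocks -/

/-- The block with ten terms. -/
def block10 : Block (Fin 10) (4 * 8) where
  ν := ![16, 16, 0, 0, 2, 6, 10, 16, 16, 16]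
  o := ![-1, 1, -1, 1, -11, -55, -13, 13, 55, 11]
  a := ![27, 5, 0, 0, 1, 3, 5, 11, 13, 15]
  b := ![0, 0, 27, 5, 15, 13, 11, 5, 3, 1]
  e := ![0, 0, 5, 27, 15, 13, 11, 5, 3, 1]
  i0 := 2
  i1 := 3
  p := 0
  sum := by
    intro X
    simp only [Fin.sum_univ_succ, Matrix.cons_val_zero, Matrix.cons_val_succ,
      Finset.univ_eq_empty, Finset.sum_empty]
    ring
  odd := by decide
  ne := by decide
  p0 := by decide
  p1 := by decide
  ν0 := rfl
  ν1 := rfl
  a0 := rfl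
  a1 := rfl
  deg := rfl
  bp := rfl
  ep := rfl
  pos := by
    intro u hu i h0 h1
    fin_cases i <;> first
      | exact absurd rfl h0
      | exact absurd rfl h1
      | simp
  inj := by
    intro u hu i j h0 h1 h2 h3 h
    fin_cases i <;> fin_cases j <;>
      first
      | rfl
      | exact absurd rfl h0
      | exact absurd rfl h1
      | exact absurd rfl h2
      | exact absurd rfl h3
      | (exfalso; simp at h; done)
      | (exfalso; simp at h; omega)
  mx := by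
    intro u hu i h0
    fin_cases i <;> first
      | exact absurd rfl h0
      | (simp; done)
      | (simp; omega)

/-- The block with eleven terms. -/
def block11 : Block (Fin 11) (4 * 9) where
  ν := ![16, 16, 0, 0, 16, 16, 2, 6, 10, 16, 16]
  o := ![-11, 11, -13, 13, 143, -143, -143, -715, -297, -117, 143]
  a := ![31, 5, 0, 0, 23, 9, 1, 3, 5, 11, 17]
  b := ![0, 0, 29, 7, 2, 2, 17, 15, 13, 7, 1]
  e := ![0, 0, 7, 29, 2, 2, 17, 15, 13, 7, 1]
  i0 := 2
  i1 := 3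
  p := 0
  sum := by
    intro X
    simp only [Fin.sum_univ_succ, Matrix.cons_val_zero, Matrix.cons_val_succ,
      Finset.univ_eq_empty, Finset.sum_empty]
    ring
  odd := by decide
  ne := by decide
  p0 := by decide
  p1 := by decide
  ν0 := rfl
  ν1 := rfl
  a0 := rfl
  a1 := rfl
  deg := rfl
  bp := rfl
  ep := rfl
  pos := by
    intro u hu i h0 h1
    fin_cases i <;> first
      | exact absurd rfl h0
      | exact absurd rfl h1
      | simp
  inj := by
    intro u hu i j h0 h1 h2 h3 h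
    fin_cases i <;> fin_cases j <;>
      first
      | rfl
      | exact absurd rfl h0
      | exact absurd rfl h1
      | exact absurd rfl h2
      | exact absurd rfl h3
      | (exfalso; simp at h; done)
      | (exfalso; simp at h; omega)
  mx := by
    intro u hu i h0
    fin_cases i <;> first
      | exact absurd rfl h0
      | (simp; done)
      | (simp; omega)

/-- The block with twelve terms. -/
def block12 : Block (Fin 12) (4 * 10) where
  ν := ![7, 7, 0, 0, 2, 7, 7, 7, 9, 8, 7, 7]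
  o := ![-7, 7, -19, 19, 91, 2223, 12103, 19019, 4389, 4389, 1995, 133]
  a := ![39, 1, 0, 0, 1, 7, 9, 11, 13, 15, 17, 19]
  b := ![0, 0, 27, 13, 19, 13, 11, 9, 7, 5, 3, 1]
  e := ![0, 0, 13, 27, 19, 13, 11, 9, 7, 5, 3, 1]
  i0 := 2
  i1 := 3
  p := 0
  sum := by
    intro X
    simp only [Fin.sum_univ_succ, Matrix.cons_val_zero, Matrix.cons_val_succ,
      Finset.univ_eq_empty, Finset.sum_empty]
    ring
  odd := by decide
  ne := by decide
  p0 := by decide
  p1 := by decide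
  ν0 := rfl
  ν1 := rfl
  a0 := rfl
  a1 := rfl
  deg := rfl
  bp := rfl
  ep := rfl
  pos := by
    intro u hu i h0 h1
    fin_cases i <;> first
      | exact absurd rfl h0
      | exact absurd rfl h1
      | simp
  inj := by
    intro u hu i j h0 h1 h2 h3 h
    fin_cases i <;> fin_cases j <;>
      first
      | rfl
      | exact absurd rfl h0
      | exact absurd rfl h1
      | exact absurd rfl h2
      | exact absurd rfl h3
      | (exfalso; simp at h; done)
      | (exfalso; simp at h; omega)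
  mx := by
    intro u hu i h0
    fin_cases i <;> first
      | exact absurd rfl h0
      | (simp; done)
      | (simp; omega)

theorem hasBlock_8 : HasBlock 8 := ⟨Fin 10, inferInstance, inferInstance, rfl, ⟨block10⟩⟩

theorem hasBlock_9 : HasBlock 9 := ⟨Fin 11, inferInstance, inferInstance, rfl, ⟨block11⟩⟩

theorem hasBlock_10 : HasBlock 10 := ⟨Fin 12, inferInstance, inferInstance, rfl, ⟨block12⟩⟩

theorem hasBlock_two (k : ℕ) (h1 : 16 ≤ k) (h2 : k ≤ 20) : HasBlock k := by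
  interval_cases k
  · exact hasBlock_8.add hasBlock_8
  · exact hasBlock_8.add hasBlock_9
  · exact hasBlock_8.add hasBlock_10
  · exact hasBlock_9.add hasBlock_10
  · exact hasBlock_10.add hasBlock_10

theorem hasBlock_three (k : ℕ) (h1 : 24 ≤ k) (h2 : k ≤ 30) : HasBlock k := by
  rcases Nat.lt_or_ge 28 k with h | h
  · have := (hasBlock_two (k - 10) (by omega) (by omega)).add hasBlock_10
    rwa [Nat.sub_add_cancel (by omega)] at this
  · have := (hasBlock_two (k - 8) (by omega) (by omega)).add hasBlock_8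
    rwa [Nat.sub_add_cancel (by omega)] at this

theorem hasBlock_large (k : ℕ) (h1 : 32 ≤ k) : HasBlock k := by
  induction k using Nat.strong_induction_on with
  | _ k ih =>
    rcases Nat.lt_or_ge k 41 with h | h
    · rcases Nat.lt_or_ge 38 k with h3 | h3
      · have := (hasBlock_three (k - 10) (by omega) (by omega)).add hasBlock_10
        rwa [Nat.sub_add_cancel (by omega)] at this
      · have := (hasBlock_three (k - 8) (by omega) (by omega)).add hasBlock_8
        rwa [Nat.sub_add_cancel (by omega)] at this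
    · have := (ih (k - 8) (by omega) (by omega)).add hasBlock_8
      rwa [Nat.sub_add_cancel (by omega)] at this

/-! ### From blocks to tuples -/

/-- Relabelling a block. -/
def Block.relabel {ι κ : Type} [Fintype ι] [Fintype κ] {D : ℕ} (B : Block ι D) (f : κ ≃ ι) :
    Block κ D where
  ν := fun i => B.ν (f i)
  o := fun i => B.o (f i)
  a := fun i => B.a (f i)
  b := fun i => B.b (f i)
  e := fun i => B.e (f i)
  i0 := f.symm B.i0
  i1 := f.symm B.i1
  p := f.symm B.p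
  sum := fun X => by
    rw [← B.sum X]
    exact f.sum_comp (fun i => 2 ^ B.ν i * B.o i * (X ^ B.a i * ((X - 1) ^ B.b i *
      (X + 1) ^ B.e i)))
  odd := fun i => B.odd _
  ne := fun h => B.ne (f.symm.injective h)
  p0 := fun h => B.p0 (f.symm.injective h)
  p1 := fun h => B.p1 (f.symm.injective h)
  ν0 := by rw [f.apply_symm_apply]; exact B.ν0
  ν1 := by rw [f.apply_symm_apply]; exact B.ν1
  a0 := by rw [f.apply_symm_apply]; exact B.a0
  a1 := by rw [f.apply_symm_apply]; exact B.a1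
  deg := by rw [f.apply_symm_apply]; exact B.deg
  bp := by rw [f.apply_symm_apply]; exact B.bp
  ep := by rw [f.apply_symm_apply]; exact B.ep
  pos := fun u hu i h0 h1 => B.pos u hu _ (fun h => h0 (by rw [← h, f.symm_apply_apply]))
    (fun h => h1 (by rw [← h, f.symm_apply_apply]))
  inj := fun u hu i j h0 h1 h2 h3 h => f.injective (B.inj u hu _ _
    (fun h => h0 (by rw [← h, f.symm_apply_apply]))
    (fun h => h1 (by rw [← h, f.symm_apply_apply]))
    (fun h => h2 (by rw [← h, f.symm_apply_apply]))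
    (fun h => h3 (by rw [← h, f.symm_apply_apply])) h)
  mx := fun u hu i h0 => by
    rw [f.apply_symm_apply]
    exact B.mx u hu _ (fun h => h0 (by rw [← h, f.symm_apply_apply]))

section tuple

variable {n D : ℕ} (B : Block (Fin n) D)

/-- The terms of a block at `X = 2 ^ u`. -/
def Block.t (u : ℕ) (i : Fin n) : ℤ :=
  2 ^ B.ν i * B.o i * (((2 : ℤ) ^ u) ^ B.a i * (((2 : ℤ) ^ u - 1) ^ B.b i *
    ((2 : ℤ) ^ u + 1) ^ B.e i))

theorem Block.t_sum (u : ℕ) : ∑ i, B.t u i = 0 := B.sum (2 ^ u)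

theorem Block.t_eq (u : ℕ) (i : Fin n) : B.t u i = 2 ^ (B.ν i + u * B.a i) *
    (B.o i * (((2 : ℤ) ^ u - 1) ^ B.b i * ((2 : ℤ) ^ u + 1) ^ B.e i)) := by
  unfold Block.t
  rw [pow_add, pow_mul]
  ring

theorem odd_sub {u : ℕ} (hu : 1 ≤ u) : Odd ((2 : ℤ) ^ u - 1) := by
  have h2 : Even ((2 : ℤ) ^ u) := by
    obtain ⟨k, rfl⟩ : ∃ k, u = k + 1 := ⟨u - 1, by omega⟩
    exact ⟨2 ^ k, by rw [pow_succ]; ring⟩
  exact h2.sub_odd odd_one

theorem odd_add {u : ℕ} (hu : 1 ≤ u) : Odd ((2 : ℤ) ^ u + 1) := by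
  have h2 : Even ((2 : ℤ) ^ u) := by
    obtain ⟨k, rfl⟩ : ∃ k, u = k + 1 := ⟨u - 1, by omega⟩
    exact ⟨2 ^ k, by rw [pow_succ]; ring⟩
  exact h2.add_odd odd_one

theorem Block.odd_part {u : ℕ} (hu : 1 ≤ u) (i : Fin n) :
    Odd (B.o i * (((2 : ℤ) ^ u - 1) ^ B.b i * ((2 : ℤ) ^ u + 1) ^ B.e i)) :=
  (B.odd i).mul ((odd_sub hu).pow.mul (odd_add hu).pow)

theorem Block.t_ne_zero {u : ℕ} (hu : 1 ≤ u) (i : Fin n) : B.t u i ≠ 0 := by
  rw [B.t_eq]
  refine mul_ne_zero (by positivity) ?_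
  intro h
  have := B.odd_part hu i
  rw [h] at this
  exact absurd this (by decide)

theorem Block.t_sub {u : ℕ} (hu : 1 ≤ u) (S : Finset (Fin n)) (hS : S.Nonempty)
    (h : ∑ i ∈ S, B.t u i = 0) : S = Finset.univ := by
  have key : ∀ T : Finset (Fin n), B.i0 ∉ T → B.i1 ∉ T → T.Nonempty → ∑ i ∈ T, B.t u i ≠ 0 := by
    intro T h0 h1 hT
    refine sum_ne_zero T hT _ _ (fun i => B.ν i + u * B.a i) (fun i _ => B.t_eq u i)
      (fun i _ => B.odd_part hu i) ?_
    intro i hi j hj hij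
    exact B.inj u hu i j (fun e => h0 (e ▸ hi)) (fun e => h1 (e ▸ hi)) (fun e => h0 (e ▸ hj))
      (fun e => h1 (e ▸ hj)) hij
  have hev : ∀ T : Finset (Fin n), B.i0 ∉ T → B.i1 ∉ T → Even (∑ i ∈ T, B.t u i) := by
    intro T h0 h1
    refine Finset.even_sum _ fun i hi => ?_
    rw [B.t_eq]
    have hv := B.pos u hu i (fun e => h0 (e ▸ hi)) (fun e => h1 (e ▸ hi))
    exact ((Int.even_pow.2 ⟨even_two, hv.ne'⟩).mul_right _)
  have hodd0 : Odd (B.t u B.i0) := by
    have := B.odd_part hu B.i0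
    rw [B.t_eq, B.ν0, B.a0]
    simpa using this
  have hodd1 : Odd (B.t u B.i1) := by
    have := B.odd_part hu B.i1
    rw [B.t_eq, B.ν1, B.a1]
    simpa using this
  by_cases h0 : B.i0 ∈ S
  · by_cases h1 : B.i1 ∈ S
    · by_contra hne
      have hc : (Sᶜ).Nonempty := by
        rw [Finset.nonempty_iff_ne_empty]
        intro he
        exact hne (by rwa [Finset.compl_eq_empty_iff] at he)
      refine key Sᶜ (by simp [h0]) (by simp [h1]) hc ?_
      have := Finset.sum_add_sum_compl S (B.t u)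
      rw [B.t_sum, h, zero_add] at this
      exact this
    · exfalso
      have e := hev (S.erase B.i0) (by simp) (by simp [h1])
      rw [← Finset.add_sum_erase S _ h0] at h
      have : Odd (B.t u B.i0 + ∑ i ∈ S.erase B.i0, B.t u i) := hodd0.add_even e
      rw [h] at this
      exact absurd this (by decide)
  · by_cases h1 : B.i1 ∈ S
    · exfalso
      have e := hev (S.erase B.i1) (by simp [h0]) (by simp)
      rw [← Finset.add_sum_erase S _ h1] at h
      have : Odd (B.t u B.i1 + ∑ i ∈ S.erase B.i1, B.t u i) := hodd1.add_even e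
      rw [h] at this
      exact absurd this (by decide)
    · exact absurd h (key S h0 h1 hS)

/-- The tuple of a block. -/
def Block.x (u : ℕ) (i : Fin n) : ℤ := B.t u i / Finset.univ.gcd (B.t u)

theorem Block.gcd_ne_zero {u : ℕ} (hu : 1 ≤ u) : Finset.univ.gcd (B.t u) ≠ 0 := by
  rw [Ne, Finset.gcd_eq_zero_iff]
  intro h
  exact B.t_ne_zero hu B.i0 (h B.i0 (Finset.mem_univ _))

theorem Block.gcd_mul_x (u : ℕ) (i : Fin n) :
    Finset.univ.gcd (B.t u) * B.x u i = B.t u i :=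
  Int.mul_ediv_cancel' (Finset.gcd_dvd (Finset.mem_univ i))

theorem Block.x_adm {u : ℕ} (hu : 1 ≤ u) : Admissible (B.x u) := by
  have hg := B.gcd_ne_zero hu
  have hsum : ∀ S : Finset (Fin n), Finset.univ.gcd (B.t u) * ∑ i ∈ S, B.x u i =
      ∑ i ∈ S, B.t u i := by
    intro S
    rw [Finset.mul_sum]
    exact Finset.sum_congr rfl fun i _ => B.gcd_mul_x u i
  refine ⟨?_, ?_, ?_⟩
  · exact Finset.gcd_div_eq_one (Finset.mem_univ B.i0) (B.t_ne_zero hu B.i0)
  · have := hsum Finset.univ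
    rw [B.t_sum] at this
    exact (mul_eq_zero.1 this).resolve_left hg
  · intro S hS hne h
    have := hsum S
    rw [h, mul_zero] at this
    exact hne (B.t_sub hu S hS this.symm)

/-- A bound of the greatest common divisor. -/
def Block.K0 : ℤ := 2 ^ B.ν B.p * B.o B.p * B.o B.i0

theorem Block.K0_ne : B.K0 ≠ 0 := by
  unfold Block.K0
  have h1 : B.o B.p ≠ 0 := fun h => by
    have := B.odd B.p
    rw [h] at this
    exact absurd this (by decide)
  have h2 : B.o B.i0 ≠ 0 := fun h => by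
    have := B.odd B.i0
    rw [h] at this
    exact absurd this (by decide)
  positivity

theorem Block.gcd_dvd_K0 (u : ℕ) : Finset.univ.gcd (B.t u) ∣ B.K0 := by
  have h0 : Finset.univ.gcd (B.t u) ∣ B.t u B.i0 := Finset.gcd_dvd (Finset.mem_univ _)
  have hp : Finset.univ.gcd (B.t u) ∣ B.t u B.p := Finset.gcd_dvd (Finset.mem_univ _)
  set g := Finset.univ.gcd (B.t u)
  have hc : IsCoprime (((2 : ℤ) ^ u) ^ B.a B.p)
      (((2 : ℤ) ^ u - 1) ^ B.b B.i0 * ((2 : ℤ) ^ u + 1) ^ B.e B.i0) := by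
    refine IsCoprime.pow_left (IsCoprime.mul_right (IsCoprime.pow_right ?_)
      (IsCoprime.pow_right ?_))
    · exact ⟨1, -1, by ring⟩
    · exact ⟨-1, 1, by ring⟩
  obtain ⟨r, s, hrs⟩ := hc
  have e0 : B.t u B.i0 = B.o B.i0 *
      (((2 : ℤ) ^ u - 1) ^ B.b B.i0 * ((2 : ℤ) ^ u + 1) ^ B.e B.i0) := by
    unfold Block.t
    rw [B.ν0, B.a0]
    ring
  have ep : B.t u B.p = 2 ^ B.ν B.p * B.o B.p * ((2 : ℤ) ^ u) ^ B.a B.p := by
    unfold Block.t
    rw [B.bp, B.ep]
    ring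
  have h : B.K0 = B.t u B.p * (r * B.o B.i0) + B.t u B.i0 * (s * (2 ^ B.ν B.p * B.o B.p)) := by
    rw [e0, ep]
    unfold Block.K0
    linear_combination (-(2 ^ B.ν B.p * B.o B.p * B.o B.i0)) * hrs
  rw [h]
  exact dvd_add (hp.mul_right _) (h0.mul_right _)

/-- A bound of the constant part of the radical. -/
def Block.K1 : ℕ := 2 * ∏ i, (B.o i).natAbs

theorem Block.K1_pos : 0 < B.K1 := by
  unfold Block.K1
  have : ∀ i ∈ (Finset.univ : Finset (Fin n)), 0 < (B.o i).natAbs := by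
    intro i _
    rw [Int.natAbs_pos]
    intro h
    have := B.odd i
    rw [h] at this
    exact absurd this (by decide)
  have := Finset.prod_pos this
  omega

theorem Block.prime_dvd (u : ℕ) (p : ℤ) (hp : Prime p) (i : Fin n) (h : p ∣ B.t u i) :
    p ∣ (B.K1 : ℤ) * (((2 : ℤ) ^ u - 1) * ((2 : ℤ) ^ u + 1)) := by
  unfold Block.t at h
  have d2 : p ∣ 2 → p ∣ (B.K1 : ℤ) * (((2 : ℤ) ^ u - 1) * ((2 : ℤ) ^ u + 1)) := by
    intro h
    refine Dvd.dvd.mul_right ?_ _
    unfold Block.K1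
    push_cast
    exact h.mul_right _
  rcases hp.dvd_or_dvd h with h | h
  · rcases hp.dvd_or_dvd h with h | h
    · exact d2 (hp.dvd_of_dvd_pow h)
    · refine Dvd.dvd.mul_right ?_ _
      unfold Block.K1
      rw [Nat.cast_mul]
      refine Dvd.dvd.mul_left ?_ _
      have h1 : ((∏ i, (B.o i).natAbs : ℕ) : ℤ) = ∏ i, |B.o i| := by
        push_cast
        rfl
      rw [h1]
      exact ((dvd_abs _ _).2 h).trans (Finset.dvd_prod_of_mem _ (Finset.mem_univ i))
  · rcases hp.dvd_or_dvd h with h | h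
    · exact d2 (hp.dvd_of_dvd_pow (hp.dvd_of_dvd_pow h))
    · rcases hp.dvd_or_dvd h with h | h
      · exact ((hp.dvd_of_dvd_pow h).mul_right _).mul_left _
      · exact ((hp.dvd_of_dvd_pow h).mul_left _).mul_left _

theorem Block.rad_le {u : ℕ} (hu : 1 ≤ u) :
    ((rad (∏ i, B.x u i) : ℕ) : ℝ) ≤ B.K1 * ((2 : ℝ) ^ u) ^ 2 := by
  set M : ℕ := B.K1 * ((2 ^ u - 1) * (2 ^ u + 1)) with hM
  have h2u : 2 ≤ 2 ^ u := by
    calc 2 = 2 ^ 1 := by norm_num
      _ ≤ 2 ^ u := Nat.pow_le_pow_right (by norm_num) hu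
  have hK1 := B.K1_pos
  have hMpos : M ≠ 0 := by
    have : 0 < 2 ^ u - 1 := by omega
    positivity
  have hMint : ((M : ℕ) : ℤ) = (B.K1 : ℤ) * (((2 : ℤ) ^ u - 1) * (2 ^ u + 1)) := by
    rw [hM]
    push_cast [Nat.cast_sub (show 1 ≤ 2 ^ u by omega)]
    ring
  have hsub : (∏ i, B.x u i).natAbs.primeFactors ⊆ M.primeFactors := by
    intro p hp
    have hpp := Nat.prime_of_mem_primeFactors hp
    have hpd := Nat.dvd_of_mem_primeFactors hp
    have hpi : Prime (p : ℤ) := Nat.prime_iff_prime_int.1 hpp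
    have hpd' : (p : ℤ) ∣ ∏ i, B.x u i := Int.natCast_dvd.2 hpd
    obtain ⟨i, _, hi⟩ := hpi.exists_mem_finset_dvd hpd'
    have hi' : (p : ℤ) ∣ B.t u i := by
      rw [← B.gcd_mul_x u i]
      exact hi.mul_left _
    have := B.prime_dvd u p hpi i hi'
    rw [← hMint] at this
    exact Nat.mem_primeFactors.2 ⟨hpp, Int.natCast_dvd_natCast.1 this, hMpos⟩
  have h1 : rad (∏ i, B.x u i) ≤ M := by
    unfold rad
    calc ∏ p ∈ (∏ i, B.x u i).natAbs.primeFactors, p ≤ ∏ p ∈ M.primeFactors, p :=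
          Finset.prod_le_prod_of_subset_of_one_le' hsub
            (fun p hp _ => (Nat.prime_of_mem_primeFactors hp).one_le)
      _ ≤ M := Nat.le_of_dvd (Nat.pos_of_ne_zero hMpos) (Nat.prod_primeFactors_dvd M)
  have h2 : (M : ℝ) ≤ B.K1 * ((2 : ℝ) ^ u) ^ 2 := by
    have h3 : (M : ℝ) = B.K1 * (((2 : ℝ) ^ u) ^ 2 - 1) := by
      have := congrArg (fun z : ℤ => (z : ℝ)) hMint
      push_cast at this
      rw [this]; ring
    rw [h3]
    have : (0 : ℝ) ≤ B.K1 := Nat.cast_nonneg _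
    nlinarith
  have h3 : ((rad (∏ i, B.x u i) : ℕ) : ℝ) ≤ (M : ℝ) := by exact_mod_cast h1
  linarith

theorem rad_pos (m : ℤ) : 1 ≤ rad m := by
  unfold rad
  exact Finset.one_le_prod' fun p hp => (Nat.prime_of_mem_primeFactors hp).one_le

theorem Block.x_ge {u : ℕ} (hu : 1 ≤ u) :
    ((2 : ℝ) ^ u) ^ D / (2 ^ D * |((B.K0 : ℤ) : ℝ)|) ≤ |((B.x u B.i0 : ℤ) : ℝ)| := by
  have hg := B.gcd_ne_zero hu
  have hK := B.K0_ne
  have hKpos : (0 : ℝ) < |((B.K0 : ℤ) : ℝ)| := abs_pos.2 (by exact_mod_cast hK)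
  have hgK : |((Finset.univ.gcd (B.t u) : ℤ) : ℝ)| ≤ |((B.K0 : ℤ) : ℝ)| := by
    have h1 := Int.natAbs_dvd_natAbs.2 (B.gcd_dvd_K0 u)
    have h2 := Nat.le_of_dvd (Int.natAbs_pos.2 hK) h1
    rw [← Int.cast_abs, ← Int.cast_abs]
    have h3 : |Finset.univ.gcd (B.t u)| ≤ |B.K0| := by
      rw [← Int.natCast_natAbs, ← Int.natCast_natAbs]
      exact_mod_cast h2
    exact_mod_cast h3
  have hgpos : (0 : ℝ) < |((Finset.univ.gcd (B.t u) : ℤ) : ℝ)| :=
    abs_pos.2 (by exact_mod_cast hg)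
  have hmul : |((Finset.univ.gcd (B.t u) : ℤ) : ℝ)| * |((B.x u B.i0 : ℤ) : ℝ)| =
      |((B.t u B.i0 : ℤ) : ℝ)| := by
    rw [← abs_mul]
    have := congrArg (fun z : ℤ => (z : ℝ)) (B.gcd_mul_x u B.i0)
    push_cast at this
    rw [this]
  have ht : ((2 : ℝ) ^ u) ^ D / 2 ^ D ≤ |((B.t u B.i0 : ℤ) : ℝ)| := by
    have e0 : ((B.t u B.i0 : ℤ) : ℝ) = (B.o B.i0 : ℝ) *
        (((2 : ℝ) ^ u - 1) ^ B.b B.i0 * ((2 : ℝ) ^ u + 1) ^ B.e B.i0) := by
      unfold Block.t
      rw [B.ν0, B.a0]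
      push_cast
      ring
    rw [e0, abs_mul]
    have ho : (1 : ℝ) ≤ |(B.o B.i0 : ℝ)| := by
      rw [← Int.cast_abs]
      have h1 : B.o B.i0 ≠ 0 := fun h => by
        have := B.odd B.i0
        rw [h] at this
        exact absurd this (by decide)
      exact_mod_cast Int.one_le_abs h1
    have h2u : (2 : ℝ) ≤ 2 ^ u := by
      calc (2 : ℝ) = 2 ^ 1 := by norm_num
        _ ≤ 2 ^ u := pow_le_pow_right₀ (by norm_num) hu
    set X : ℝ := 2 ^ u with hX
    have h1 : X / 2 ≤ X - 1 := by linarith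
    have h3 : X / 2 ≤ X + 1 := by linarith
    have h4 : 0 ≤ X / 2 := by linarith
    have h5 : (X / 2) ^ D ≤ (X - 1) ^ B.b B.i0 * (X + 1) ^ B.e B.i0 := by
      have hdeg : (X / 2) ^ D = (X / 2) ^ (B.b B.i0 + B.e B.i0) := congrArg _ B.deg.symm
      rw [hdeg, pow_add]
      exact mul_le_mul (pow_le_pow_left₀ h4 h1 _) (pow_le_pow_left₀ h4 h3 _) (by positivity)
        (pow_nonneg (by linarith) _)
    have h6 : 0 ≤ (X - 1) ^ B.b B.i0 * (X + 1) ^ B.e B.i0 := le_trans (by positivity) h5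
    rw [abs_of_nonneg h6, ← div_pow]
    nlinarith
  rw [div_mul_eq_div_div]
  rw [div_le_iff₀ hKpos]
  calc ((2 : ℝ) ^ u) ^ D / 2 ^ D ≤ |((B.t u B.i0 : ℤ) : ℝ)| := ht
    _ = |((Finset.univ.gcd (B.t u) : ℤ) : ℝ)| * |((B.x u B.i0 : ℤ) : ℝ)| := hmul.symm
    _ ≤ |((B.K0 : ℤ) : ℝ)| * |((B.x u B.i0 : ℤ) : ℝ)| :=
        mul_le_mul_of_nonneg_right hgK (abs_nonneg _)
    _ = |((B.x u B.i0 : ℤ) : ℝ)| * |((B.K0 : ℤ) : ℝ)| := mul_comm _ _

include B in
/-- The infinite set of tuples of a block. -/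
theorem Block.infinite (hD : 0 < D) (τ : ℝ) (hτ : 2 * τ < D) :
    {x : Fin n → ℤ | Admissible x ∧
      ∃ j, ((rad (∏ i, x i) : ℕ) : ℝ) ^ τ < |((x j : ℤ) : ℝ)|}.Infinite := by
  set σ : ℝ := max τ 0 with hσ
  have hD' : (0 : ℝ) < D := by exact_mod_cast hD
  have hσ0 : 0 ≤ σ := le_max_right _ _
  have hσD : 2 * σ < D := by
    rcases max_choice τ 0 with h | h
    · rw [hσ, h]; exact hτ
    · rw [hσ, h]; simpa using hD'
  have hlim : Filter.Tendsto (fun u : ℕ => ((2 : ℝ) ^ ((D : ℝ) - 2 * σ)) ^ u) Filter.atTop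
      Filter.atTop := by
    refine tendsto_pow_atTop_atTop_of_one_lt ?_
    exact Real.one_lt_rpow (by norm_num) (by linarith)
  have hlim2 : Filter.Tendsto (fun u : ℕ => ((2 : ℝ) ^ D) ^ u) Filter.atTop Filter.atTop := by
    refine tendsto_pow_atTop_atTop_of_one_lt ?_
    exact one_lt_pow₀ (by norm_num) hD.ne'
  have hKpos : (0 : ℝ) < |((B.K0 : ℤ) : ℝ)| := abs_pos.2 (by exact_mod_cast B.K0_ne)
  have hK1 : (0 : ℝ) < B.K1 := by exact_mod_cast B.K1_pos
  intro hfin
  -- the i0-th entries are bounded on a finite set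
  obtain ⟨C, hC⟩ := (hfin.image fun x : Fin n → ℤ => |((x B.i0 : ℤ) : ℝ)|).bddAbove
  obtain ⟨u, hu⟩ := ((hlim.eventually (Filter.eventually_gt_atTop
    (2 ^ D * |((B.K0 : ℤ) : ℝ)| * (B.K1 : ℝ) ^ σ))).and
    ((hlim2.eventually (Filter.eventually_gt_atTop
      (C * (2 ^ D * |((B.K0 : ℤ) : ℝ)|)))).and (Filter.eventually_ge_atTop 1))).exists
  obtain ⟨h1, h2, hu1⟩ := hu
  have hge := B.x_ge hu1
  have hmem : B.x u ∈ {x : Fin n → ℤ | Admissible x ∧
      ∃ j, ((rad (∏ i, x i) : ℕ) : ℝ) ^ τ < |((x j : ℤ) : ℝ)|} := by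
    refine ⟨B.x_adm hu1, B.i0, ?_⟩
    have hr1 : (1 : ℝ) ≤ ((rad (∏ i, B.x u i) : ℕ) : ℝ) := by
      exact_mod_cast rad_pos _
    have hX : (0 : ℝ) < 2 ^ u := by positivity
    calc ((rad (∏ i, B.x u i) : ℕ) : ℝ) ^ τ
        ≤ ((rad (∏ i, B.x u i) : ℕ) : ℝ) ^ σ :=
          Real.rpow_le_rpow_of_exponent_le hr1 (le_max_left _ _)
      _ ≤ (B.K1 * ((2 : ℝ) ^ u) ^ 2) ^ σ :=
          Real.rpow_le_rpow (by linarith) (B.rad_le hu1) hσ0
      _ = (B.K1 : ℝ) ^ σ * ((2 : ℝ) ^ u) ^ (2 * σ) := by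
          rw [Real.mul_rpow hK1.le (by positivity), ← Real.rpow_natCast ((2 : ℝ) ^ u) 2,
            ← Real.rpow_mul hX.le]
          norm_num
      _ < ((2 : ℝ) ^ u) ^ D / (2 ^ D * |((B.K0 : ℤ) : ℝ)|) := by
          rw [lt_div_iff₀ (by positivity)]
          have e : ((2 : ℝ) ^ ((D : ℝ) - 2 * σ)) ^ u * ((2 : ℝ) ^ u) ^ (2 * σ) =
              ((2 : ℝ) ^ u) ^ D := by
            rw [← Real.rpow_natCast ((2 : ℝ) ^ ((D : ℝ) - 2 * σ)) u,
              ← Real.rpow_mul (by norm_num),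
              ← Real.rpow_natCast (2 : ℝ) u, ← Real.rpow_mul (by norm_num),
              ← Real.rpow_add (by norm_num), ← Real.rpow_natCast _ D,
              ← Real.rpow_mul (by norm_num)]
            congr 1
            ring
          have hY : (0 : ℝ) < ((2 : ℝ) ^ u) ^ (2 * σ) := Real.rpow_pos_of_pos hX _
          rw [← e]
          have := mul_lt_mul_of_pos_right h1 hY
          linarith
      _ ≤ |((B.x u B.i0 : ℤ) : ℝ)| := hge
  have hle : |((B.x u B.i0 : ℤ) : ℝ)| ≤ C := hC ⟨B.x u, hmem, rfl⟩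
  have h3 := hge.trans hle
  rw [div_le_iff₀ (by positivity)] at h3
  have h4 : ((2 : ℝ) ^ u) ^ D = ((2 : ℝ) ^ D) ^ u := by
    rw [← pow_mul, ← pow_mul, mul_comm]
  rw [h4] at h3
  linarith

end tuple

/-- For every integer `n ≥ 34`, and for `n` in `{10, 11, 12}`, `{18, …, 22}` and `{26, …, 32}`, and
for every `ε < 1`, there are infinitely many admissible `n`-tuples with an entry larger than
`rad (x₁ ⋯ xₙ) ^ (2 n - 5 + ε)`. -/
theorem result (n : ℕ) (hn : 34 ≤ n ∨ (10 ≤ n ∧ n ≤ 12) ∨ (18 ≤ n ∧ n ≤ 22) ∨ (26 ≤ n ∧ n ≤ 32))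
    (ε : ℝ) (hε : ε < 1) :
    {x : Fin n → ℤ | Admissible x ∧
      ∃ j, ((rad (∏ i, x i) : ℕ) : ℝ) ^ (2 * (n : ℝ) - 5 + ε) < |((x j : ℤ) : ℝ)|}.Infinite := by
  have hB : HasBlock (n - 2) := by
    rcases hn with h | ⟨h1, h2⟩ | ⟨h1, h2⟩ | ⟨h1, h2⟩
    · exact hasBlock_large _ (by omega)
    · interval_cases n
      · exact hasBlock_8
      · exact hasBlock_9
      · exact hasBlock_10
    · exact hasBlock_two _ (by omega) (by omega)
    · exact hasBlock_three _ (by omega) (by omega)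
  have hn10 : 10 ≤ n := by omega
  obtain ⟨ι, _, _, hc, ⟨B⟩⟩ := hB
  have hc' : Fintype.card (Fin n) = Fintype.card ι := by
    rw [hc, Fintype.card_fin]
    omega
  have f : Fin n ≃ ι := Fintype.equivOfCardEq hc'
  refine Block.infinite (B.relabel f) (by omega) _ ?_
  have h4 : ((4 * (n - 2) : ℕ) : ℝ) = 4 * ((n : ℝ) - 2) := by
    push_cast [Nat.cast_sub (show 2 ≤ n by omega)]
    ring
  rw [h4]
  linarith

end Pool.Agent.Results.MP_a95293_nt.SharperFormFails
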