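import Pool.Agent.Lib_MP_a95293_nn.Final

set_option autoImplicit false

/-! MP_a95293_nt, all `n ≥ 3`: few admissible `n`-tuples violate a large exponent. -/

namespace Pool.Agent.Results.MP_a95293_nt.ViolationCount

/-- `rad m` is the product of the distinct primes dividing the integer `m` (and `rad (±1) = 1`). -/
def rad (m : ℤ) : ℕ := ∏ p ∈ m.natAbs.primeFactors, p

/-- An `n`-tuple of integers is admissible if its gcd is `1`, its sum is `0`, and no nonempty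
proper sub-sum vanishes. -/
def Admissible {n : ℕ} (x : Fin n → ℤ) : Prop :=
  Finset.univ.gcd x = 1 ∧ ∑ i, x i = 0 ∧
    ∀ S : Finset (Fin n), S.Nonempty → S ≠ Finset.univ → ∑ i ∈ S, x i ≠ 0

/-- The admissible `n`-tuples `x`, pairwise coprime if `n ≥ 4`, with `R = rad (x₁ ⋯ xₙ) ≤ X`,
all `|x j| ≤ X ^ A`, some `|x j| ≥ R ^ M` and, if `s < n - 2`, at least `n - s` of the `|x j|`
at least `R ^ M`. -/
def Viol (n s M A X : ℕ) : Set (Fin n → ℤ) :=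
  {x | Admissible x ∧ (4 ≤ n → ∀ i j, i ≠ j → IsCoprime (x i) (x j)) ∧ rad (∏ i, x i) ≤ X ∧
    (∀ j, |x j| ≤ (X : ℤ) ^ A) ∧ (∃ j, (rad (∏ i, x i) : ℤ) ^ M ≤ |x j|) ∧
    (s + 2 < n → n ≤ s + (Finset.univ.filter fun j => (rad (∏ i, x i) : ℤ) ^ M ≤ |x j|).card)}

/-- For `n ≥ 3`, `1 ≤ s ≤ n - 2` and `θ > max (1 - 2 / n) (1 - 1 / s)` there is an exponent `M`
such that for every `A` the set `Viol n s M A X` has `O (X ^ θ)` elements. -/
theorem result : ∀ n s : ℕ, 1 ≤ s → s + 2 ≤ n → ∀ θ : ℝ, 1 - 2 / (n : ℝ) < θ →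
    1 - 1 / (s : ℝ) < θ → ∃ M : ℕ, ∀ A : ℕ, ∃ C : ℝ, ∀ X : ℕ, 1 ≤ X →
      (Viol n s M A X).Finite ∧ ((Viol n s M A X).ncard : ℝ) ≤ C * (X : ℝ) ^ θ :=
  Pool.MP_a95293_nt.NN.mainF

end Pool.Agent.Results.MP_a95293_nt.ViolationCount
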